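import Pool.Agent.REV.StmtsV3

/-!
# REV, row YD3: the derivative of `c RA(c)` for `n = 3`
-/

set_option autoImplicit false

open MeasureTheory Set Filter
open scoped Topology

namespace Pool.Agent.REV.H6

open Pool.Agent.REV

/-- the weight -/
noncomputable def w3 (r : ℝ) : ℝ := r / Real.sqrt (1 - r ^ 2)

theorem w3_meas : Measurable w3 := by
  unfold w3
  exact measurable_id.div (Real.continuous_sqrt.measurable.comp
    (measurable_const.sub (measurable_id.pow_const 2)))

theorem w3_nonneg {r : ℝ} (h : 0 ≤ r) : 0 ≤ w3 r := div_nonneg h (Real.sqrt_nonneg _)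

theorem sq_der {r : ℝ} (h0 : 0 < r) (h1 : r < 1) :
    HasDerivAt (fun s : ℝ => -Real.sqrt (1 - s ^ 2)) (w3 r) r := by
  have hpos : 0 < 1 - r ^ 2 := by nlinarith
  have h2 : HasDerivAt (fun s : ℝ => 1 - s ^ 2) (-(2 * r)) r := by
    have := ((hasDerivAt_id r).pow 2).const_sub 1
    refine this.congr_deriv ?_
    simp
  have h3 := (h2.sqrt hpos.ne').neg
  refine h3.congr_deriv ?_
  unfold w3
  have hs : Real.sqrt (1 - r ^ 2) ≠ 0 := (Real.sqrt_pos.mpr hpos).ne'
  field_simp

theorem sq_cont (a b : ℝ) : ContinuousOn (fun s : ℝ => -Real.sqrt (1 - s ^ 2)) (Icc a b) := by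
  fun_prop

theorem w3_int {t : ℝ} (h0 : 0 ≤ t) (h1 : t ≤ 1) : IntegrableOn w3 (Ioc t 1) := by
  refine intervalIntegral.integrableOn_deriv_of_nonneg (sq_cont t 1) (fun x hx => ?_)
    (fun x hx => ?_)
  · exact sq_der (lt_of_le_of_lt h0 hx.1) hx.2
  · exact w3_nonneg (h0.trans hx.1.le)

theorem w3_val {t : ℝ} (h0 : 0 ≤ t) (h1 : t ≤ 1) :
    ∫ r in Ioc t 1, w3 r = Real.sqrt (1 - t ^ 2) := by
  rw [← intervalIntegral.integral_of_le h1]
  rw [intervalIntegral.integral_eq_sub_of_hasDerivAt_of_le h1 (sq_cont t 1)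
    (fun x hx => sq_der (lt_of_le_of_lt h0 hx.1) hx.2)
    ((intervalIntegrable_iff_integrableOn_Ioc_of_le h1).mpr (w3_int h0 h1))]
  simp

/-- Fubini on the triangle. -/
theorem tri (h : ℝ → ℝ) (hm : Measurable h) (C : ℝ) (hC : ∀ t, |h t| ≤ C) :
    ∫ r in Ioc (0 : ℝ) 1, w3 r * ∫ t in Ioc (0 : ℝ) r, h t =
      ∫ t in Ioc (0 : ℝ) 1, Real.sqrt (1 - t ^ 2) * h t := by
  have hmeasset : MeasurableSet {p : ℝ × ℝ | p.2 ≤ p.1} :=
    measurableSet_le measurable_snd measurable_fst
  have hmeas : Measurable fun p : ℝ × ℝ => w3 p.1 * (if p.2 ≤ p.1 then h p.2 else 0) :=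
    (w3_meas.comp measurable_fst).mul
      (Measurable.ite hmeasset (hm.comp measurable_snd) measurable_const)
  have hint : Integrable (Function.uncurry fun r t : ℝ => w3 r * (if t ≤ r then h t else 0))
      ((volume.restrict (Ioc (0 : ℝ) 1)).prod (volume.restrict (Ioc (0 : ℝ) 1))) := by
    have hg : Integrable (fun p : ℝ × ℝ => w3 p.1 * C)
        ((volume.restrict (Ioc (0 : ℝ) 1)).prod (volume.restrict (Ioc (0 : ℝ) 1))) :=
      Integrable.mul_prod (w3_int le_rfl zero_le_one) (integrable_const C)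
    refine hg.mono hmeas.aestronglyMeasurable (Eventually.of_forall fun p => ?_)
    have hC0 : 0 ≤ C := (abs_nonneg _).trans (hC 0)
    simp only [Function.uncurry]
    rw [norm_mul, norm_mul]
    refine mul_le_mul_of_nonneg_left ?_ (norm_nonneg _)
    rw [Real.norm_eq_abs, Real.norm_eq_abs, abs_of_nonneg hC0]
    split_ifs
    · exact hC _
    · simpa using hC0
  have e1 : ∫ r in Ioc (0 : ℝ) 1, w3 r * ∫ t in Ioc (0 : ℝ) r, h t =
      ∫ r in Ioc (0 : ℝ) 1, ∫ t in Ioc (0 : ℝ) 1, w3 r * (if t ≤ r then h t else 0) := by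
    refine setIntegral_congr_fun measurableSet_Ioc fun r hr => ?_
    rw [integral_const_mul]
    congr 1
    have : Ioc (0 : ℝ) r = Ioc (0 : ℝ) 1 ∩ Iic r := by
      ext x
      simp only [mem_Ioc, mem_inter_iff, mem_Iic]
      constructor
      · intro hx
        exact ⟨⟨hx.1, hx.2.trans hr.2⟩, hx.2⟩
      · intro hx
        exact ⟨hx.1.1, hx.2⟩
    rw [this, ← setIntegral_indicator measurableSet_Iic]
    refine integral_congr_ae (Eventually.of_forall fun t => ?_)
    simp only [indicator, mem_Iic]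
  have e2 : ∫ t in Ioc (0 : ℝ) 1, ∫ r in Ioc (0 : ℝ) 1, w3 r * (if t ≤ r then h t else 0) =
      ∫ t in Ioc (0 : ℝ) 1, Real.sqrt (1 - t ^ 2) * h t := by
    refine setIntegral_congr_fun measurableSet_Ioc fun t ht => ?_
    rw [← w3_val ht.1.le ht.2, ← integral_mul_const]
    have hsub : Ioc t 1 = Ioc (0 : ℝ) 1 ∩ Ioi t := by
      ext x
      simp only [mem_Ioc, mem_inter_iff, mem_Ioi]
      constructor
      · intro hx
        exact ⟨⟨ht.1.trans hx.1, hx.2⟩, hx.1⟩
      · intro hx
        exact ⟨hx.2, hx.1.2⟩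
    rw [hsub, ← setIntegral_indicator measurableSet_Ioi]
    have hne : ∀ᵐ r ∂(volume.restrict (Ioc (0 : ℝ) 1)), r ≠ t := by
      refine ae_restrict_of_ae ?_
      rw [ae_iff]
      simp
    refine integral_congr_ae ?_
    filter_upwards [hne] with r hr
    simp only [indicator, mem_Ioi]
    by_cases h1 : t < r
    · rw [if_pos h1.le, if_pos h1]
    · rw [if_neg h1, if_neg (fun h2 => h1 (lt_of_le_of_ne h2 (Ne.symm hr))), mul_zero]
  rw [e1, integral_integral_swap hint, e2]

theorem ra_eq (f : ℝ → ℝ) (hf : Measurable f) (C : ℝ) (hC : ∀ t, |f t| ≤ C) (u : ℝ) :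
    u * RA 3 f u = ∫ r in Ioc (0 : ℝ) 1, w3 r * ∫ x in (0 : ℝ)..r * u, f x := by
  have h1 := tri (fun t => u * f (t * u)) (measurable_const.mul
    (hf.comp (measurable_id.mul_const u))) (|u| * C) (fun t => by
      rw [abs_mul]
      exact mul_le_mul_of_nonneg_left (hC _) (abs_nonneg _))
  have h2 : u * RA 3 f u = ∫ t in Ioc (0 : ℝ) 1, Real.sqrt (1 - t ^ 2) * (u * f (t * u)) := by
    unfold RA
    rw [intervalIntegral.integral_of_le zero_le_one, ← integral_const_mul]
    refine setIntegral_congr_fun measurableSet_Ioc fun t _ => ?_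
    rw [Real.sqrt_eq_rpow]
    have : (((3 : ℕ) : ℝ) - 2) / 2 = 1 / 2 := by norm_num
    rw [this]
    ring
  rw [h2, ← h1]
  refine setIntegral_congr_fun measurableSet_Ioc fun r hr => ?_
  congr 1
  rw [← intervalIntegral.integral_of_le hr.1.le, intervalIntegral.integral_const_mul,
    intervalIntegral.mul_integral_comp_mul_right, zero_mul]

theorem rb_eq (f : ℝ → ℝ) (v : ℝ) :
    RB 3 f v = ∫ r in Ioc (0 : ℝ) 1, w3 r * (r * f (r * v)) := by
  unfold RB
  rw [intervalIntegral.integral_of_le zero_le_one]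
  refine setIntegral_congr_fun measurableSet_Ioc fun r hr => ?_
  have h0 : 0 ≤ 1 - r ^ 2 := by nlinarith [hr.1, hr.2]
  have : (((3 : ℕ) : ℝ) - 4) / 2 = -(1 / 2) := by norm_num
  rw [this, Real.rpow_neg h0, ← Real.sqrt_eq_rpow]
  unfold w3
  rw [div_eq_mul_inv]
  ring

theorem dif3 (f : ℝ → ℝ) (hf : Measurable f) (C : ℝ) (hC : ∀ t, |f t| ≤ C) {a b : ℝ}
    (hab : a ≤ b) : b * RA 3 f b - a * RA 3 f a = ∫ v in a..b, RB 3 f v := by
  have hC0 : 0 ≤ C := (abs_nonneg _).trans (hC 0)
  have hfint : ∀ x y : ℝ, IntervalIntegrable f volume x y := fun x y =>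
    (intervalIntegrable_const (c := C)).mono_fun' hf.aestronglyMeasurable
      (Eventually.of_forall fun s => by
        change ‖f s‖ ≤ C
        rw [Real.norm_eq_abs]
        exact hC s)
  have hmeas : Measurable fun p : ℝ × ℝ => w3 p.1 * (p.1 * f (p.1 * p.2)) :=
    (w3_meas.comp measurable_fst).mul (measurable_fst.mul
      (hf.comp (measurable_fst.mul measurable_snd)))
  have hint : Integrable (Function.uncurry fun r v : ℝ => w3 r * (r * f (r * v)))
      ((volume.restrict (Ioc (0 : ℝ) 1)).prod (volume.restrict (Ioc a b))) := by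
    have hg : Integrable (fun p : ℝ × ℝ => w3 p.1 * C)
        ((volume.restrict (Ioc (0 : ℝ) 1)).prod (volume.restrict (Ioc a b))) :=
      Integrable.mul_prod (w3_int le_rfl zero_le_one) (integrable_const C)
    refine hg.mono hmeas.aestronglyMeasurable ?_
    have hae : ∀ᵐ p ∂((volume.restrict (Ioc (0 : ℝ) 1)).prod (volume.restrict (Ioc a b))),
        p.1 ∈ Ioc (0 : ℝ) 1 := by
      rw [Measure.prod_restrict]
      filter_upwards [ae_restrict_mem (measurableSet_Ioc.prod measurableSet_Ioc)] with p hp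
      exact hp.1
    filter_upwards [hae] with p hp
    simp only [Function.uncurry]
    rw [norm_mul, norm_mul (w3 p.1) C]
    refine mul_le_mul_of_nonneg_left ?_ (norm_nonneg _)
    rw [norm_mul, Real.norm_eq_abs, Real.norm_eq_abs, Real.norm_eq_abs, abs_of_nonneg hC0,
      abs_of_nonneg hp.1.le]
    calc p.1 * |f (p.1 * p.2)| ≤ 1 * C :=
          mul_le_mul hp.2 (hC _) (abs_nonneg _) zero_le_one
      _ = C := one_mul C
  have hI : ∀ u : ℝ, Integrable (fun r => w3 r * ∫ x in (0 : ℝ)..r * u, f x)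
      (volume.restrict (Ioc (0 : ℝ) 1)) := by
    intro u
    have hg : Integrable (fun r : ℝ => w3 r * (C * |u|)) (volume.restrict (Ioc (0 : ℝ) 1)) :=
      (w3_int le_rfl zero_le_one).mul_const _
    have hcont : Continuous fun y : ℝ => ∫ x in (0 : ℝ)..y, f x :=
      intervalIntegral.continuous_primitive (fun x y => hfint x y) 0
    refine hg.mono ((w3_meas.mul (hcont.measurable.comp
      (measurable_id.mul_const u))).aestronglyMeasurable) ?_
    filter_upwards [ae_restrict_mem measurableSet_Ioc] with r hr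
    rw [norm_mul, norm_mul]
    refine mul_le_mul_of_nonneg_left ?_ (norm_nonneg _)
    have h1 : ‖∫ x in (0 : ℝ)..r * u, f x‖ ≤ C * |r * u - 0| :=
      intervalIntegral.norm_integral_le_of_norm_le_const fun x _ => by
        rw [Real.norm_eq_abs]
        exact hC x
    refine h1.trans ?_
    rw [sub_zero, abs_mul, abs_of_nonneg hr.1.le, Real.norm_eq_abs,
      abs_of_nonneg (mul_nonneg hC0 (abs_nonneg u))]
    refine mul_le_mul_of_nonneg_left ?_ hC0
    calc r * |u| ≤ 1 * |u| := mul_le_mul_of_nonneg_right hr.2 (abs_nonneg _)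
      _ = |u| := one_mul _
  rw [ra_eq f hf C hC b, ra_eq f hf C hC a, ← integral_sub (hI b) (hI a)]
  have e1 : ∫ r in Ioc (0 : ℝ) 1, ((w3 r * ∫ x in (0 : ℝ)..r * b, f x) -
      w3 r * ∫ x in (0 : ℝ)..r * a, f x) =
      ∫ r in Ioc (0 : ℝ) 1, ∫ v in Ioc a b, w3 r * (r * f (r * v)) := by
    refine setIntegral_congr_fun measurableSet_Ioc fun r _ => ?_
    rw [← mul_sub, intervalIntegral.integral_interval_sub_left (hfint _ _) (hfint _ _),
      integral_const_mul, integral_const_mul, ← intervalIntegral.integral_of_le hab,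
      intervalIntegral.mul_integral_comp_mul_left]
  rw [e1, integral_integral_swap hint, intervalIntegral.integral_of_le hab]
  refine setIntegral_congr_fun measurableSet_Ioc fun v _ => ?_
  rw [rb_eq]

/-- **YD3** -/
theorem yd3 (rc3 : Rc3Stmt) : Yd3Stmt := by
  intro f c hf hb hc
  obtain ⟨C, hC⟩ := hb
  have hcont : ContinuousOn (RB 3 f) (Ioi 0) := fun x hx =>
    (rc3 f x hf ⟨C, hC⟩ hx).continuousWithinAt
  have hd : HasDerivAt (fun u => ∫ v in c..u, RB 3 f v) (RB 3 f c) c :=
    intervalIntegral.integral_hasDerivAt_right (by simp)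
      (hcont.stronglyMeasurableAtFilter isOpen_Ioi c hc) (rc3 f c hf ⟨C, hC⟩ hc)
  have heq : ∀ u : ℝ, u * RA 3 f u = c * RA 3 f c + ∫ v in c..u, RB 3 f v := by
    intro u
    rcases le_total c u with h | h
    · rw [← dif3 f hf C hC h]
      ring
    · rw [intervalIntegral.integral_symm, ← dif3 f hf C hC h]
      ring
  have h2 := hd.const_add (c * RA 3 f c)
  exact h2.congr_of_eventuallyEq (Eventually.of_forall heq)

end Pool.Agent.REV.H6
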