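import Pool.Agent.REV.StmtsG
import Pool.Agent.BPH.Sph
import Pool.Agent.BPH.Avg

/-!
# REV, row MPS: one vector more
-/

set_option autoImplicit false

open MeasureTheory Module Set Filter
open scoped RealInnerProductSpace Pointwise Topology ENNReal

namespace Pool.Agent.REV.H6

open Pool.Agent.BPH Pool.Agent.Helper55_PB Pool.Agent.Helper28_PB

theorem nrm_le {E : Type} [NormedAddCommGroup E] [InnerProductSpace ℝ E] (x : E) :
    ‖nrm x‖ ≤ 1 := by
  unfold nrm
  rw [norm_smul, norm_inv, norm_norm]
  exact inv_mul_le_one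

theorem fub {E : Type} [NormedAddCommGroup E] [InnerProductSpace ℝ E] [FiniteDimensional ℝ E]
    [MeasurableSpace E] [BorelSpace E] (i : ℕ) (G : (Fin (i + 1) → E) → ℝ) (hG : BM G) :
    ∫ v, G v ∂sphP E (i + 1) = ∫ v, ∫ a, G (cns a v) ∂sph E ∂sphP E i := by
  haveI : IsProbabilityMeasure (sph E) := sph_facts.prob
  haveI : IsProbabilityMeasure (sphP E i) := by unfold sphP; infer_instance
  haveI : IsProbabilityMeasure (sphP E (i + 1)) := by unfold sphP; infer_instance
  obtain ⟨hm, C, hC⟩ := hG
  have hmp : MeasurePreserving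
      (MeasurableEquiv.piFinSuccAbove (fun _ : Fin (i + 1) => E) 0).symm
      ((sph E).prod (sphP E i)) (sphP E (i + 1)) :=
    (measurePreserving_piFinSuccAbove (fun _ : Fin (i + 1) => sph E) 0).symm
  have e1 : ∫ v, G v ∂sphP E (i + 1) = ∫ q : E × (Fin i → E),
      G ((MeasurableEquiv.piFinSuccAbove (fun _ : Fin (i + 1) => E) 0).symm q)
        ∂((sph E).prod (sphP E i)) :=
    (hmp.integral_comp (MeasurableEquiv.measurableEmbedding _) G).symm
  have hval : ∀ q : E × (Fin i → E),
      G ((MeasurableEquiv.piFinSuccAbove (fun _ : Fin (i + 1) => E) 0).symm q) =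
        G (cns q.1 q.2) := by
    intro q
    congr 1
    funext k
    refine Fin.cases ?_ (fun k' => ?_) k
    · rfl
    · rfl
  have hGi : Integrable G (sphP E (i + 1)) :=
    Integrable.of_bound hm.aestronglyMeasurable C (Eventually.of_forall fun v => by
      rw [Real.norm_eq_abs]
      exact hC v)
  have hint : Integrable (fun q : E × (Fin i → E) => G (cns q.1 q.2))
      ((sph E).prod (sphP E i)) := by
    have := (hmp.integrable_comp_emb (MeasurableEquiv.measurableEmbedding _) (g := G)).2 hGi
    refine this.congr (Eventually.of_forall fun q => ?_)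
    exact hval q
  rw [e1, integral_congr_ae (Eventually.of_forall hval), integral_prod_symm _ hint]

theorem mps : MpsStmt := by
  intro E _ _ _ _ _ i
  refine ⟨fun U Ψ hΨ hC => ?_, fun G hG => fub i G hG⟩
  obtain ⟨C, hC⟩ := hC
  have hBM : BM (fun x : Fin (i + 1) → E => Ψ (fun l => nrm (U.starProjection (x l)))) := by
    refine ⟨hΨ.comp (measurable_pi_lambda _ fun l => ?_), C, fun x => hC _ fun l => nrm_le _⟩
    exact AvgH.meas_nrm.comp (U.starProjection.continuous.measurable.comp (measurable_pi_apply l))
  unfold mP mS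
  rw [fub i _ hBM]
  have hpt : ∀ (v : Fin i → E) (a : E),
      (fun l => nrm (U.starProjection (cns a v l))) =
        cns (nrm (U.starProjection a)) (fun l => nrm (U.starProjection (v l))) := by
    intro v a
    funext k
    refine Fin.cases ?_ (fun k' => ?_) k
    · rfl
    · rfl
  refine integral_congr_ae (Eventually.of_forall fun v => ?_)
  refine integral_congr_ae (Eventually.of_forall fun a => ?_)
  show Ψ (fun l => nrm (U.starProjection (cns a v l))) = _
  rw [hpt v a]

end Pool.Agent.REV.H6
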